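import Pool.Agent.H738R2.NoCurve

/-!
# MP_5d0005_an : the map of the flat cylinder surface need not have rotational invariant curves

The definitions used by the statement (`StrictlyConvexCurve`, `PhaseCylinder`, `Chord`,
`IsBilliardMap`, `cylinderMap`, `IsRotationalInvariantCurve`, `PartA`, `PartB`) are in
`Pool/Agent/H738R2/CylStmt.lean`.

The example is the ellipse `x²/4 + y² = 1` with `d = 4 L`: there `T₁` changes `cot α` by exactly
`(3/2) sin (t₀ + t₁)`, where `t₀, t₁` are the eccentric anomalies of the end points of the chord, and
a path argument gives orbits of `T` that climb from below any given height to above any given
height, which is impossible in the presence of a rotational invariant curve.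
-/

set_option autoImplicit false

namespace Pool.Agent.Results.MP_5d0005_an.NoInvariantCurve

open Pool.Agent.H738R2.Cyl

/-- Both parts of the question have a negative answer: it is not true that for every `C^∞` strictly
convex closed curve `γ` and every `d > 0` the map `T = T₂ ∘ T₁` has a rotational invariant curve
(part (a)), and it is not true that rotational invariant curves always accumulate at the two
boundary components of the phase cylinder (part (b)). -/
theorem result : ¬ PartA ∧ ¬ PartB := main

end Pool.Agent.Results.MP_5d0005_an.NoInvariantCurve
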